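import Pool.Agent.V5helper31.PC.Univ

/-!
# The absolute Dennis trace `K₁(K[Γ]) → HH₁(K[Γ] / ℤ)`, `K` a field of characteristic `p`

`K` is a field of characteristic `p > 0` and `Γ` a group.  The Hochschild homology of `K[Γ]` is
taken over `ℤ`; besides the homology of the centralisers it contains the Kähler differentials
`Ω_{K/ℤ}`, one copy for each conjugacy class.  Its additive functionals are the biadditive maps `F`
with `F (x y, z) - F (x, y z) + F (z x, y) = 0`.
-/

set_option autoImplicit false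

namespace Pool.Agent.Results.MP_c052b4_al.AbsoluteDennisTraceCharP

open MonoidAlgebra Pool.Agent.V5helper31.PC

universe u v w

section defs

variable {K : Type u} [Field K] {Γ : Type v} [Group Γ] {V : Type w} [AddCommGroup V]

/-- `F (x y, z) - F (x, y z) + F (z x, y) = 0`: an additive functional on the Hochschild homology
of `K[Γ]` over `ℤ`, in degree `1` -/
def IsCocycle (F : MonoidAlgebra K Γ →+ MonoidAlgebra K Γ →+ V) : Prop :=
  ∀ x y z, F (x * y) z - F x (y * z) + F (z * x) y = 0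

/-- `F (a g, b h) = 0` if `g h ≠ 1` -/
def AtIdentity (F : MonoidAlgebra K Γ →+ MonoidAlgebra K Γ →+ V) : Prop :=
  ∀ (a b : K) (g h : Γ), g * h ≠ 1 → F (single g a) (single h b) = 0

/-- `∑ F ((A⁻¹)_ij, A_ji) = F (μ⁻¹, μ) + F (γ⁻¹, γ)` -/
def TraceEq {n : ℕ} (A : (Matrix (Fin n) (Fin n) (MonoidAlgebra K Γ))ˣ) (μ : Kˣ) (γ : Γ)
    (F : MonoidAlgebra K Γ →+ MonoidAlgebra K Γ →+ V) : Prop :=
  ∑ i, ∑ j, F ((A⁻¹).val i j) (A.val j i) =
    F (single 1 (μ⁻¹).val) (single 1 μ.val) + F (single γ⁻¹ 1) (single γ 1)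

end defs

/-- Let `K` be a field of characteristic `p > 0`, `Γ` a group and `A` an invertible matrix over
`K[Γ]`.

(1) If `Γ` has no elements of order `p`, then there are `μ ∈ Kˣ` and `γ ∈ Γ` such that the Dennis
traces of `A` and of `μ`, `γ` have the same component at the conjugacy class of `1` in the absolute
Hochschild homology `HH₁(K[Γ] / ℤ)`: every Hochschild `1`-cocycle `F` (biadditive, values in any
abelian group) which vanishes on the pairs `(a g, b h)` with `g h ≠ 1` satisfies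
`∑ F ((A⁻¹)_ij, A_ji) = F (μ⁻¹, μ) + F (γ⁻¹, γ)`.

(2) If the `p`-th roots in `Γ` are unique and no `g ≠ 1` is conjugate to `g ^ (p ^ j)`, `j ≥ 1`,
then this holds for all Hochschild `1`-cocycles, and `μ` is the determinant of the matrix of the
sums of the coefficients of the entries of `A`. -/
theorem result (p : ℕ) [Fact p.Prime] (K : Type u) [Field K] [CharP K p] (Γ : Type v) [Group Γ]
    (n : ℕ) (A : (Matrix (Fin n) (Fin n) (MonoidAlgebra K Γ))ˣ) :
    ((∀ g : Γ, g ^ p = 1 → g = 1) →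
      ∃ (μ : Kˣ) (γ : Γ), ∀ (V : Type w) [AddCommGroup V]
        (F : MonoidAlgebra K Γ →+ MonoidAlgebra K Γ →+ V),
        IsCocycle F → AtIdentity F → TraceEq A μ γ F) ∧
    ((∀ a b : Γ, a ^ p = b ^ p → a = b) →
      (∀ g : Γ, g ≠ 1 → ∀ (x : Γ) (j : ℕ), 1 ≤ j → x * g * x⁻¹ ≠ g ^ p ^ j) →
      ∃ (μ : Kˣ) (γ : Γ), μ.val = (Matrix.of fun i j => (A.val i j).coeff.sum fun _ a => a).det ∧
        ∀ (V : Type w) [AddCommGroup V] (F : MonoidAlgebra K Γ →+ MonoidAlgebra K Γ →+ V),
          IsCocycle F → TraceEq A μ γ F) :=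
  ⟨fun hΓ => one_univ hΓ A, fun hroot hdiv => all_univ hroot hdiv A⟩

end Pool.Agent.Results.MP_c052b4_al.AbsoluteDennisTraceCharP
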