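import Pool.Agent.V5helper31.PC.ZFin

/-!
# The absolute Dennis trace `K₁(K[Γ]) → HH₁(K[Γ] / ℤ)`, `K` a field of characteristic zero

`K` is any field of characteristic `0`.  The Hochschild homology of `K[Γ]` is taken over `ℤ`;
besides the homology of the centralisers it contains the Kähler differentials `Ω_{K/ℤ}`, one copy
for each conjugacy class.  Its `K`-linear functionals are the biadditive maps `F` with
`F (x y, z) - F (x, y z) + F (z x, y) = 0` and `F (c x, y) = c F (x, y)`.
-/

set_option autoImplicit false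

namespace Pool.Agent.Results.MP_c052b4_al.AbsoluteDennisTraceZero

open MonoidAlgebra Pool.Agent.V5helper31.PC

universe u v w

/-- for every finite set `P` of elements `≠ 1` of `H` there are infinitely many primes `p` such
that the `p`-th roots in `H` are unique and every `g ∈ P` is not a `p ^ k`-th power for some `k` -/
def GoodPrimes (H : Type v) [Group H] : Prop :=
  ∀ P : Finset H, (∀ g ∈ P, g ≠ 1) →
    {p : ℕ | p.Prime ∧ (∀ x y : H, x ^ p = y ^ p → x = y) ∧
      ∀ g ∈ P, ∃ k : ℕ, ∀ x : H, x ^ p ^ k ≠ g}.Infinite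

section defs

variable {K : Type u} [Field K] {Γ : Type v} [Group Γ]

/-- a `K`-linear functional on the Hochschild homology of `K[Γ]` over `ℤ`, in degree `1` -/
def IsFunctional (F : MonoidAlgebra K Γ →+ MonoidAlgebra K Γ →+ K) : Prop :=
  (∀ x y z, F (x * y) z - F x (y * z) + F (z * x) y = 0) ∧ ∀ (c : K) x y, F (c • x) y = c * F x y

/-- the determinant of the matrix of the sums of the coefficients -/
noncomputable def augDet {n : ℕ} (A : Matrix (Fin n) (Fin n) (MonoidAlgebra K Γ)) : K :=
  (Matrix.of fun i j => (A i j).coeff.sum fun _ a => a).det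

end defs

/-- Let `K` be a field of characteristic `0` and `Γ` a group such that either
(a) every finitely generated subgroup of `Γ` satisfies `GoodPrimes`, or
(b) `Γ` is torsion-free and linear over some field, of any characteristic.
Then for every invertible matrix `A` over `K[Γ]` there is `γ ∈ Γ` such that the Dennis traces of `A`
and of `λ = augDet A` and `γ` agree under every `K`-linear functional `F` on `HH₁(K[Γ] / ℤ)` whose
values `F (g, h)`, `g, h ∈ Γ`, `g h ≠ 1`, lie in a finitely generated subring of `K`: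
`∑ F ((A⁻¹)_ij, A_ji) = F (λ⁻¹, λ) + F (γ⁻¹, γ)`. -/
theorem result (K : Type u) [Field K] [CharZero K] (Γ : Type v) [Group Γ]
    (hΓ : (∀ H : Subgroup Γ, H.FG → GoodPrimes H) ∨
      ((∀ (g : Γ) (m : ℕ), 0 < m → g ^ m = 1 → g = 1) ∧
        ∃ (L : Type w) (_ : Field L) (N : ℕ) (φ : Γ →* GL (Fin N) L), Function.Injective φ))
    (n : ℕ) (A : (Matrix (Fin n) (Fin n) (MonoidAlgebra K Γ))ˣ) :
    ∃ γ : Γ, ∀ (s : Finset K) (F : MonoidAlgebra K Γ →+ MonoidAlgebra K Γ →+ K),
      IsFunctional F →
      (∀ g h : Γ, g * h ≠ 1 → F (single g 1) (single h 1) ∈ Algebra.adjoin ℤ (s : Set K)) →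
      ∑ i, ∑ j, F ((A⁻¹).val i j) (A.val j i) =
        F (single 1 (augDet A.val)⁻¹) (single 1 (augDet A.val)) +
        F (single γ⁻¹ 1) (single γ 1) := by
  have hG : ∀ H : Subgroup Γ, H.FG → Gp H := by
    rcases hΓ with h | ⟨htf, L, iL, N, φ, hφ⟩
    · exact h
    · exact gp_linear φ hφ htf
  obtain ⟨γ, hγ⟩ := zero_all (K := K) hG A
  exact ⟨γ, fun s F hF hs => hγ s F hF.1 hF.2 hs⟩

end Pool.Agent.Results.MP_c052b4_al.AbsoluteDennisTraceZero
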