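import Pool.Agent.V5helper31.UB.Fin

/-!
# From characteristic zero to large characteristic, and uniform bounds, for the conjecture in
# degrees zero and one

For a field `k` and a torsion-free group `G` the K-theoretic Farrell-Jones conjecture says in degree
`0` that every idempotent matrix over `k[G]` is stably free, and in degree `1` that every invertible
matrix is, after the addition of one entry `u g` (`u ∈ k`, `g ∈ G`) and an identity matrix, a product
of elementary matrices.

1. If this holds in characteristic `0`, for all groups of a class which is closed under subgroups and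
   direct products (for example all torsion-free groups), then it holds in large characteristic: for
   all matrices with at most `s` terms in each of the `n ^ 2` entries over `k[G]`, `char k ≥ N`, where
   `N` depends on `n` and `s` only, not on `k` and `G`, and `N` also bounds the size of the matrices,
   the number of the elementary matrices and the length of the group elements which are needed.
2. Without condition on the characteristic the conjecture is likewise equivalent to uniform bounds.
3. The known theorems on traces in characteristic `0` of Kaplansky and Zalesskii (for torsion-free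
   groups) hold in this range of large characteristics, unconditionally; and `k[G]` is directly
   finite in this range, for all groups.

Idea. A matrix with few terms over `k[G]` is the image of a matrix over `k[Γ]` for one of finitely many
groups `Γ` of the class, namely the universal ones for the finitely many possible coincidences
between words of length at most `2` in the terms. If there were no bound for one of these `Γ`, an
ultraproduct of counterexamples would be a counterexample, with the same group `Γ`, over a field of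
characteristic `0`.
-/

set_option autoImplicit false

namespace Pool.Agent.Results.MP_c052b4_al.LargeCharacteristic

open MonoidAlgebra
open scoped Pointwise

universe u

section defs

variable {k : Type u} [Field k] {G : Type u} [Group G] {n : ℕ} {ι κ : Type}

/-- every entry of `A` has at most `s` terms -/
def Terms (s : ℕ) (A : Matrix ι κ (MonoidAlgebra k G)) : Prop :=
  ∀ i j, (A i j).coeff.support.card ≤ s

/-- the group elements which occur in `A` -/
def occ (A : Matrix ι κ (MonoidAlgebra k G)) : Set G := {g | ∃ i j, (A i j).coeff g ≠ 0}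

/-- the products of at most `N` elements of `S` and inverses of elements of `S` -/
def ball (S : Set G) (N : ℕ) : Set G := (insert 1 (S ∪ S⁻¹)) ^ N

/-- the projective module `k[G]^n e` is stably free -/
def StFree (e : Matrix (Fin n) (Fin n) (MonoidAlgebra k G)) : Prop :=
  ∃ (r q : ℕ) (x : Matrix (Fin n ⊕ Fin r) (Fin q) (MonoidAlgebra k G))
    (y : Matrix (Fin q) (Fin n ⊕ Fin r) (MonoidAlgebra k G)),
    x * y = Matrix.fromBlocks e 0 0 1 ∧ y * x = 1

/-- the same with sizes at most `N` and group elements in `ball S N` -/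
def StFreeIn (N : ℕ) (S : Set G) (e : Matrix (Fin n) (Fin n) (MonoidAlgebra k G)) : Prop :=
  ∃ r ≤ N, ∃ q ≤ N, ∃ (x : Matrix (Fin n ⊕ Fin r) (Fin q) (MonoidAlgebra k G))
    (y : Matrix (Fin q) (Fin n ⊕ Fin r) (MonoidAlgebra k G)),
    x * y = Matrix.fromBlocks e 0 0 1 ∧ y * x = 1 ∧ occ x ⊆ ball S N ∧ occ y ⊆ ball S N

/-- an elementary matrix: the identity matrix plus one entry -/
def elem {ι R : Type*} [DecidableEq ι] [Ring R] (p : ι × ι × R) : Matrix ι ι R :=
  1 + Matrix.single p.1 p.2.1 p.2.2

/-- the block diagonal matrix with the blocks `A`, `u g` and an identity matrix of size `r` -/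
noncomputable def blk (A : Matrix (Fin n) (Fin n) (MonoidAlgebra k G)) (r : ℕ) (u : k) (g : G) :
    Matrix (Fin n ⊕ Fin (r + 1)) (Fin n ⊕ Fin (r + 1)) (MonoidAlgebra k G) :=
  Matrix.fromBlocks A 0 0 (Matrix.diagonal fun i => if i = 0 then MonoidAlgebra.single g u else 1)

/-- for some `u g` the matrix with the blocks `A`, `u g`, `1` is a product of elementary matrices -/
def Triv (A : Matrix (Fin n) (Fin n) (MonoidAlgebra k G)) : Prop :=
  ∃ (r : ℕ) (u : k) (g : G)
    (l : List ((Fin n ⊕ Fin (r + 1)) × (Fin n ⊕ Fin (r + 1)) × MonoidAlgebra k G)),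
    u ≠ 0 ∧ (∀ p ∈ l, p.1 ≠ p.2.1) ∧ blk A r u g = (l.map elem).prod

/-- the same with `r ≤ N`, at most `N` elementary matrices and group elements in `ball S N` -/
def TrivIn (N : ℕ) (S : Set G) (A : Matrix (Fin n) (Fin n) (MonoidAlgebra k G)) : Prop :=
  ∃ r ≤ N, ∃ (u : k) (g : G)
    (l : List ((Fin n ⊕ Fin (r + 1)) × (Fin n ⊕ Fin (r + 1)) × MonoidAlgebra k G)),
    u ≠ 0 ∧ g ∈ ball S N ∧ l.length ≤ N ∧
    (∀ p ∈ l, p.1 ≠ p.2.1 ∧ (p.2.2.coeff.support : Set G) ⊆ ball S N) ∧
    blk A r u g = (l.map elem).prod

/-- the trace of a matrix -/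
noncomputable def tr (e : Matrix (Fin n) (Fin n) (MonoidAlgebra k G)) : k :=
  ∑ i, (e i i).coeff 1

end defs

/-- characteristic zero or at least `N` -/
def Big (N : ℕ) (k : Type u) [Field k] : Prop := ringChar k = 0 ∨ N ≤ ringChar k

/-- the group is torsion-free -/
def TorsionFree (G : Type u) [Group G] : Prop := ∀ (g : G) (n : ℕ), 0 < n → g ^ n = 1 → g = 1

/-- a class of groups closed under subgroups and direct products -/
def Prevariety (C : ∀ (G : Type u) [Group G], Prop) : Prop :=
  (∀ (G H : Type u) [Group G] [Group H] (f : H →* G), Function.Injective f → C G → C H) ∧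
  ∀ (ι : Type u) (G : ι → Type u) [∀ i, Group (G i)], (∀ i, C (G i)) → C (∀ i, G i)

section conj

variable (C : ∀ (G : Type u) [Group G], Prop)

/-- the conjecture in degree zero for the fields with `Φ` and the groups of the class `C` -/
def K0 (Φ : ∀ (k : Type u) [Field k], Prop) : Prop :=
  ∀ (k : Type u) [Field k], Φ k → ∀ (G : Type u) [Group G], C G →
    ∀ (n : ℕ) (e : Matrix (Fin n) (Fin n) (MonoidAlgebra k G)), e * e = e → StFree e

/-- uniform bounds in degree zero -/
def K0Bounds (Φ : ℕ → ∀ (k : Type u) [Field k], Prop) : Prop :=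
  ∀ n s : ℕ, ∃ N : ℕ, ∀ (k : Type u) [Field k], Φ N k → ∀ (G : Type u) [Group G], C G →
    ∀ e : Matrix (Fin n) (Fin n) (MonoidAlgebra k G), e * e = e → Terms s e →
      StFreeIn N (occ e) e

/-- the conjecture in degree one for the fields with `Φ` and the groups of the class `C` -/
def K1 (Φ : ∀ (k : Type u) [Field k], Prop) : Prop :=
  ∀ (k : Type u) [Field k], Φ k → ∀ (G : Type u) [Group G], C G →
    ∀ (n : ℕ) (A B : Matrix (Fin n) (Fin n) (MonoidAlgebra k G)), A * B = 1 → B * A = 1 → Triv A

/-- uniform bounds in degree one -/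
def K1Bounds (Φ : ℕ → ∀ (k : Type u) [Field k], Prop) : Prop :=
  ∀ n s : ℕ, ∃ N : ℕ, ∀ (k : Type u) [Field k], Φ N k → ∀ (G : Type u) [Group G], C G →
    ∀ A B : Matrix (Fin n) (Fin n) (MonoidAlgebra k G), A * B = 1 → B * A = 1 →
      Terms s A → Terms s B → TrivIn N (occ A ∪ occ B) A

end conj

lemma exists_terms {k : Type u} [Field k] {G : Type u} [Group G] {n : ℕ}
    (e : Matrix (Fin n) (Fin n) (MonoidAlgebra k G)) : ∃ s, Terms s e := by
  refine ⟨∑ i, ∑ j, (e i j).coeff.support.card, fun i j => ?_⟩
  exact (Finset.single_le_sum (f := fun j => (e i j).coeff.support.card)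
    (fun _ _ => Nat.zero_le _) (Finset.mem_univ j)).trans
    (Finset.single_le_sum (f := fun i => ∑ j, (e i j).coeff.support.card)
      (fun _ _ => Nat.zero_le _) (Finset.mem_univ i))

lemma k0_iff {C : ∀ (G : Type u) [Group G], Prop} (hC : Prevariety C)
    (Φ : ℕ → ∀ (k : Type u) [Field k], Prop) (Φ' : ∀ (k : Type u) [Field k], Prop)
    (hanti : ∀ (M N : ℕ), M ≤ N → ∀ (k : Type u) [Field k], Φ N k → Φ M k)
    (hult : ∀ (k : ℕ → Type u) [∀ j, Field (k j)], (∀ j, Φ j (k j)) →
      Φ' (Pool.Agent.V5helper31.UB.UK k))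
    (hsub : ∀ (k : Type u) [Field k], Φ' k → ∀ N, Φ N k) : K0 C Φ' ↔ K0Bounds C Φ := by
  constructor
  · intro h n s
    exact Pool.Agent.V5helper31.UB.K0_uniform ⟨hC.1, hC.2⟩ Φ Φ' hanti hult n s
      fun k _ hk G _ hG e he => h k hk G hG n e he
  · intro h k _ hk G _ hG n e he
    obtain ⟨s, hs⟩ := exists_terms e
    obtain ⟨N, hN⟩ := h n s
    obtain ⟨r, _, q, _, x, y, h1, h2, _⟩ := hN k (hsub k hk N) G hG e he hs
    exact ⟨r, q, x, y, h1, h2⟩

lemma k1_iff {C : ∀ (G : Type u) [Group G], Prop} (hC : Prevariety C)
    (Φ : ℕ → ∀ (k : Type u) [Field k], Prop) (Φ' : ∀ (k : Type u) [Field k], Prop)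
    (hanti : ∀ (M N : ℕ), M ≤ N → ∀ (k : Type u) [Field k], Φ N k → Φ M k)
    (hult : ∀ (k : ℕ → Type u) [∀ j, Field (k j)], (∀ j, Φ j (k j)) →
      Φ' (Pool.Agent.V5helper31.UB.UK k))
    (hsub : ∀ (k : Type u) [Field k], Φ' k → ∀ N, Φ N k) : K1 C Φ' ↔ K1Bounds C Φ := by
  constructor
  · intro h n s
    exact Pool.Agent.V5helper31.UB.K1_uniform ⟨hC.1, hC.2⟩ Φ Φ' hanti hult n s
      fun k _ hk G _ hG A B h1 h2 => h k hk G hG n A B h1 h2
  · intro h k _ hk G _ hG n A B h1 h2
    obtain ⟨s, hs⟩ := exists_terms A
    obtain ⟨t, ht⟩ := exists_terms B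
    obtain ⟨N, hN⟩ := h n (s + t)
    obtain ⟨r, _, u, g, l, h3, _, _, h4, h5⟩ := hN k (hsub k hk N) G hG A B h1 h2
      (fun i j => (hs i j).trans (by omega)) fun i j => (ht i j).trans (by omega)
    exact ⟨r, u, g, l, h3, fun p hp => (h4 p hp).1, h5⟩

/-- (1) Let the class `C` of groups be closed under subgroups and direct products (such as the class
of all torsion-free groups). The conjecture in degree zero for all fields of characteristic zero and
all groups of `C` is equivalent to the following: for all `n`, `s` there is `N` such that for all fields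
`k` of characteristic zero or at least `N` and all `G` in `C` all idempotent `n × n` matrices over `k[G]`
with at most `s` terms in each entry are stably free, with matrices `x`, `y` of size at most `n + N` and
products of at most `N` of the group elements which occur. (2) The same without conditions on the
characteristic. (3), (4) The same in degree one, with at most `N` elementary matrices.
(5) If the conjecture in degree zero holds in characteristic zero for all torsion-free groups, then
for all `s` there is `N` such that idempotents with at most `s` terms in `k[G]`, `G` torsion-free,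
`char k ≥ N`, are `0` or `1`.
(6) Unconditionally, for all `n`, `s` there is `N` such that for all fields `k` of characteristic zero or
at least `N`, all groups `G` and `n × n` matrices over `k[G]` with at most `s` terms in each entry:
`x y = 1` implies `y x = 1`; an idempotent matrix with trace zero is zero; and if `G` is torsion-free, the
trace of an idempotent matrix is `a / b` with natural numbers `a ≤ n b`, `1 ≤ b ≤ N`. -/
theorem result :
    (∀ C : ∀ (G : Type u) [Group G], Prop, Prevariety C →
      (K0 C (fun k _ => CharZero k) ↔ K0Bounds C Big) ∧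
      (K0 C (fun _ _ => True) ↔ K0Bounds C fun _ _ _ => True) ∧
      (K1 C (fun k _ => CharZero k) ↔ K1Bounds C Big) ∧
      (K1 C (fun _ _ => True) ↔ K1Bounds C fun _ _ _ => True)) ∧
    Prevariety.{u} (fun G _ => TorsionFree G) ∧
    (K0.{u} (fun G _ => TorsionFree G) (fun k _ => CharZero k) → ∀ s : ℕ, ∃ N : ℕ,
      ∀ (k : Type u) [Field k], Big N k → ∀ (G : Type u) [Group G], TorsionFree G →
        ∀ e : MonoidAlgebra k G, e * e = e → e.coeff.support.card ≤ s → e = 0 ∨ e = 1) ∧
    ∀ n s : ℕ, ∃ N : ℕ, ∀ (k : Type u) [Field k], Big N k → ∀ (G : Type u) [Group G],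
      (∀ x y : Matrix (Fin n) (Fin n) (MonoidAlgebra k G), Terms s x → Terms s y →
        x * y = 1 → y * x = 1) ∧
      ∀ e : Matrix (Fin n) (Fin n) (MonoidAlgebra k G), e * e = e → Terms s e →
        (tr e = 0 → e = 0) ∧
        (TorsionFree G → ∃ a b : ℕ, 0 < b ∧ b ≤ N ∧ a ≤ n * b ∧ b * tr e = a) := by
  have hB : ∀ (M N : ℕ), M ≤ N → ∀ (k : Type u) [Field k], Big N k → Big M k :=
    fun M N h k _ hk => hk.imp_right fun h1 => h.trans h1
  have hZ : ∀ (k : Type u) [Field k], CharZero k → ∀ N, Big N k :=
    fun k _ _ N => Or.inl (ringChar.eq_zero (R := k))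
  have hT := Pool.Agent.V5helper31.UB.prevar_torsionFree.{u}
  refine ⟨fun C hC => ⟨?_, ?_, ?_, ?_⟩, ⟨hT.sub, hT.prod⟩, ?_, fun n s => ?_⟩
  · exact k0_iff hC Big _ hB Pool.Agent.V5helper31.UB.big_ult hZ
  · exact k0_iff hC _ _ (fun _ _ _ _ _ h => h) (fun _ _ _ => trivial) fun _ _ _ _ => trivial
  · exact k1_iff hC Big _ hB Pool.Agent.V5helper31.UB.big_ult hZ
  · exact k1_iff hC _ _ (fun _ _ _ _ _ h => h) (fun _ _ _ => trivial) fun _ _ _ _ => trivial
  · intro h s
    exact Pool.Agent.V5helper31.UB.idem_large (fun k _ hk G _ hG n e he => h k hk G hG n e he) s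
  · obtain ⟨N1, h1⟩ := Pool.Agent.V5helper31.UB.finite_large.{u} n s
    obtain ⟨N2, h2⟩ := Pool.Agent.V5helper31.UB.kaplansky_large.{u} n s
    obtain ⟨N3, h3⟩ := Pool.Agent.V5helper31.UB.trace_large.{u} n s
    refine ⟨N1 + N2 + N3, fun k _ hk G _ => ⟨?_, fun e he hs => ⟨?_, fun hG => ?_⟩⟩⟩
    · exact h1 k (hB _ _ (by omega) k hk) G
    · exact h2 k (hB _ _ (by omega) k hk) G e he hs
    · obtain ⟨a, b, h4, h5, h6, h7⟩ := h3 k (hB _ _ (by omega) k hk) G hG e he hs
      exact ⟨a, b, h4, by omega, h6, h7⟩

end Pool.Agent.Results.MP_c052b4_al.LargeCharacteristic
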