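import Pool.Agent.V5helper31.PC.RatMain

/-!
# `K₁(K(t)[Γ])`, `K` a field of characteristic zero, `Γ` any group

Let `A` be an invertible matrix over `K(t)[Γ]` and `D` a `K`-derivation of `K(t)`.  The component of
the trace of `A⁻¹ D(A)` at the conjugacy class of an element `g₀` of finite order is a sum of
logarithmic derivatives of polynomials, with coefficients in the field `ℚ(ζ)` of the roots of unity
of the same order as `g₀`.
-/

set_option autoImplicit false

namespace Pool.Agent.Results.MP_c052b4_al.RationalFunctionFields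

open MonoidAlgebra Polynomial Pool.Agent.V5helper31.PC

universe u v

section defs

variable {K : Type u} [Field K] {Γ : Type v} [Group Γ]

open Classical in
/-- The component at the conjugacy class of `g₀` of the trace of `A⁻¹ D(A)`, where `D` is applied to
the coefficients of the entries of `A`: the sum of all `b D(a)`, `b` the coefficient of `g` in
`(A⁻¹)_ij` and `a` the coefficient of `h` in `A_ji`, with `g h` conjugate to `g₀`. -/
noncomputable def logTrace (g₀ : Γ) (D : Derivation K (RatFunc K) (RatFunc K)) {n : ℕ}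
    (A : (Matrix (Fin n) (Fin n) (MonoidAlgebra (RatFunc K) Γ))ˣ) : RatFunc K :=
  ∑ i, ∑ j, ((A⁻¹).val i j).coeff.sum fun g b => (A.val j i).coeff.sum fun h a =>
    if IsConj (g * h) g₀ then b * D a else 0

lemma logTrace_eq (g₀ : Γ) (D : Derivation K (RatFunc K) (RatFunc K)) {n : ℕ}
    (A : (Matrix (Fin n) (Fin n) (MonoidAlgebra (RatFunc K) Γ))ˣ) (δ : RatFunc K →+ RatFunc K)
    (c : RatFunc K) (h : ∀ x, D x = c * δ x) :
    logTrace g₀ D A = c * Pool.Agent.H23R2.Cyc.tf (cr (RatFunc K) (fun g => IsConj g g₀))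
      ((A⁻¹).val * mD δ A.val) := by
  rw [tf_mD_eq, logTrace, Finset.mul_sum]
  refine Finset.sum_congr rfl fun i _ => ?_
  rw [Finset.mul_sum]
  refine Finset.sum_congr rfl fun j _ => ?_
  rw [Finsupp.mul_sum]
  refine Finsupp.sum_congr fun g _ => ?_
  rw [Finsupp.mul_sum]
  refine Finsupp.sum_congr fun k _ => ?_
  unfold cr
  split_ifs
  · rw [h]
    ring
  · ring

end defs

/-- Let `K` be a field of characteristic `0`, `Γ` any group, `g₀ ∈ Γ` with `g₀ ^ m = 1`, `m > 0`,
and `ζ ∈ K` a primitive `m`-th root of unity (`ζ = 1` and `m = 1` for `g₀ = 1`).  For every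
invertible matrix `A` over `K(t)[Γ]` there are finitely many monic irreducible polynomials `V` and
numbers `r_V ∈ ℚ(ζ)` such that, for all `K`-derivations `D` of `K(t)`, the component at the conjugacy
class of `g₀` of the trace of `A⁻¹ D(A)` is `∑ r_V D(V) / V`. -/
theorem result (K : Type u) [Field K] [CharZero K] (Γ : Type v) [Group Γ] (g₀ : Γ) (m : ℕ)
    (hm : 0 < m) (hg₀ : g₀ ^ m = 1) (ζ : K) (hζ : IsPrimitiveRoot ζ m) (n : ℕ)
    (A : (Matrix (Fin n) (Fin n) (MonoidAlgebra (RatFunc K) Γ))ˣ) :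
    ∃ (I : Finset K[X]) (r : K[X] → K),
      (∀ V ∈ I, V.Monic ∧ Irreducible V ∧ r V ∈ IntermediateField.adjoin ℚ {ζ}) ∧
      ∀ D : Derivation K (RatFunc K) (RatFunc K),
        logTrace g₀ D A = ∑ V ∈ I, algebraMap K (RatFunc K) (r V) *
          (D (algebraMap K[X] (RatFunc K) V) / algebraMap K[X] (RatFunc K) V) := by
  have hCr : ∀ a : K, ip K (C a) = algebraMap K (RatFunc K) a := by
    intro a
    rw [IsScalarTower.algebraMap_apply K K[X] (RatFunc K)]
    rfl
  by_cases hex : ∃ D : Derivation K (RatFunc K) (RatFunc K), D (ip K X) ≠ 0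
  · obtain ⟨D₀, hD₀⟩ := hex
    set c := D₀ (ip K X) with hc
    let δ : RatFunc K →+ RatFunc K := AddMonoidHom.mk' (fun x => c⁻¹ * D₀ x) (by
      intro x y
      rw [map_add, mul_add])
    have hδ : Lz δ := by
      intro x y
      change c⁻¹ * D₀ (x * y) = c⁻¹ * D₀ x * y + x * (c⁻¹ * D₀ y)
      rw [Derivation.leibniz, smul_eq_mul, smul_eq_mul]
      ring
    have hδp : ∀ p, δ (ip K p) = ip K (derivative p) := by
      intro p
      change c⁻¹ * D₀ (ip K p) = _
      rw [der_ip D₀ p, ← hc, mul_comm, mul_assoc, mul_inv_cancel₀ hD₀, mul_one]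
    obtain ⟨I, r, hI, h1⟩ := rat_main g₀ m hm.ne' hg₀ ζ hζ A.val (A⁻¹).val A.mul_inv A.inv_mul δ
      hδ hδp
    refine ⟨I, r, hI, fun D => ?_⟩
    rw [logTrace_eq g₀ D A δ (D (ip K X)) (der_eq D δ hδ hδp), h1, Finset.mul_sum]
    refine Finset.sum_congr rfl fun V _ => ?_
    rw [der_ip D V, hCr]
    ring
  · push Not at hex
    refine ⟨∅, fun _ => 0, by simp, fun D => ?_⟩
    have h0 : ∀ p, D (ip K p) = 0 := by
      intro p
      rw [der_ip D p, hex D, mul_zero]
    have h1 : ∀ x, D x = 0 := by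
      intro x
      have hW : ip K x.denom ≠ 0 := ip_ne (RatFunc.denom_ne_zero x)
      have h2 : x * ip K x.denom = ip K x.num := by
        have h1 := RatFunc.num_div_denom x
        rw [div_eq_iff hW] at h1
        exact h1.symm
      have h3 := congrArg D h2
      rw [Derivation.leibniz, h0, h0, smul_zero, zero_add, smul_eq_mul] at h3
      exact (mul_eq_zero.1 h3).resolve_left hW
    rw [logTrace_eq g₀ D A 0 0 (fun x => by rw [h1, zero_mul]), zero_mul, Finset.sum_empty]

end Pool.Agent.Results.MP_c052b4_al.RationalFunctionFields
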